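import Mathlib

/-! Existence of the parameters (helper55). -/

set_option autoImplicit false

namespace Pool.Agent.T9h55.KQ

open Filter Topology

open Classical in
theorem exists_adm (A : ℕ) : ∃ z H : ℕ → ℕ, Monotone z ∧ Tendsto z atTop atTop ∧
    (∀ᶠ k : ℕ in atTop, (((z k).factorial : ℕ) : ℝ) ≤ Real.log k) ∧
    (∀ᶠ k : ℕ in atTop, (k : ℝ) ^ 2 / Real.log k ^ A ≤ ((z k).factorial : ℝ) * H k ∧
      ((z k).factorial : ℝ) * H k ≤ 2 * ((k : ℝ) ^ 2 / Real.log k ^ A)) ∧ ∀ k, 1 ≤ H k := by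
  have hlog : Tendsto (fun k : ℕ => Real.log (k : ℝ)) atTop atTop := Real.tendsto_log_atTop.comp tendsto_natCast_atTop_atTop
  set z : ℕ → ℕ := fun k => Nat.findGreatest (fun m => ((m.factorial : ℕ) : ℝ) ≤ Real.log k) k with hz
  have hz1 : ∀ᶠ k : ℕ in atTop, (((z k).factorial : ℕ) : ℝ) ≤ Real.log k := by
    filter_upwards [hlog.eventually_ge_atTop 1] with k hk
    exact Nat.findGreatest_spec (P := fun m => ((m.factorial : ℕ) : ℝ) ≤ Real.log k) (Nat.zero_le k) (by simpa using hk)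
  have hmono : Monotone z := by
    intro a b hab
    rcases Nat.eq_zero_or_pos a with h | h
    · subst h
      simp [hz]
    · apply Nat.findGreatest_mono
      · intro m hm
        exact le_trans hm (Real.log_le_log (by exact_mod_cast h) (by exact_mod_cast hab))
      · exact hab
  have htend : Tendsto z atTop atTop := by
    rw [tendsto_atTop]
    intro m
    filter_upwards [hlog.eventually_ge_atTop ((m.factorial : ℕ) : ℝ), eventually_ge_atTop m] with k h1 h2
    exact Nat.le_findGreatest h2 h1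
  refine ⟨z, fun k => max 1 ⌈(k : ℝ) ^ 2 / (Real.log k ^ A * (z k).factorial)⌉₊, hmono, htend, hz1, ?_, fun k => le_max_left _ _⟩
  have hsmall : ∀ᶠ k : ℕ in atTop, Real.log k ^ (A + 1) ≤ (k : ℝ) ^ 2 := by
    have h2 := (isLittleO_log_rpow_rpow_atTop (s := 2) ((A + 1 : ℕ) : ℝ) (by norm_num)).def one_pos
    have h3 := tendsto_natCast_atTop_atTop.eventually h2
    filter_upwards [h3, eventually_ge_atTop 1] with n h4 h5
    have hn1 : (1 : ℝ) ≤ n := by exact_mod_cast h5
    have hl := Real.log_nonneg hn1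
    rw [Real.rpow_natCast, Real.norm_eq_abs, Real.norm_eq_abs, one_mul, abs_of_nonneg (pow_nonneg hl _),
      show (2 : ℝ) = ((2 : ℕ) : ℝ) by norm_num, Real.rpow_natCast, abs_of_nonneg (by positivity)] at h4
    exact h4
  filter_upwards [hz1, hsmall, hlog.eventually_ge_atTop 1, eventually_ge_atTop 1] with k h1 h2 h3 h4
  set L : ℝ := Real.log k with hL
  set M : ℝ := ((z k).factorial : ℝ) with hM
  have hM1 : 1 ≤ M := by
    rw [hM]
    exact_mod_cast Nat.factorial_pos _
  have hL0 : 0 < L := by linarith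
  have hM0 : 0 < M := by linarith
  have hk0 : (0 : ℝ) < k := by exact_mod_cast h4
  have hMk : M ≤ (k : ℝ) ^ 2 / L ^ A := by
    rw [le_div_iff₀ (by positivity)]
    calc M * L ^ A ≤ L * L ^ A := mul_le_mul_of_nonneg_right h1 (by positivity)
      _ = L ^ (A + 1) := by ring
      _ ≤ _ := h2
  set Y : ℝ := (k : ℝ) ^ 2 / (L ^ A * M) with hY
  have hYM : M * Y = (k : ℝ) ^ 2 / L ^ A := by
    rw [hY]
    field_simp
  have hY1 : 1 ≤ Y := by
    rw [hY, one_le_div (by positivity)]
    rw [le_div_iff₀ (by positivity)] at hMk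
    linarith
  have hceil : 1 ≤ ⌈Y⌉₊ := Nat.one_le_ceil_iff.2 (by linarith)
  rw [max_eq_right hceil]
  constructor
  · rw [← hYM]
    exact mul_le_mul_of_nonneg_left (Nat.le_ceil Y) hM0.le
  · rw [← hYM]
    have h5 : (⌈Y⌉₊ : ℝ) ≤ 2 * Y := by
      have := Nat.ceil_lt_add_one (show 0 ≤ Y by linarith)
      linarith
    calc M * (⌈Y⌉₊ : ℝ) ≤ M * (2 * Y) := mul_le_mul_of_nonneg_left h5 hM0.le
      _ = 2 * (M * Y) := by ring

end Pool.Agent.T9h55.KQ
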