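import Pool.Agent.T9h55.KQ.Mean
import Pool.Agent.T9h55.RM.Conc
import Pool.Agent.T9h55.RM.In
import Pool.Agent.Cov.PNT

/-! The density of the primes among random numbers congruent to `k² + 3 k + 1` (helper55). -/

set_option autoImplicit false

namespace Pool.Agent.T9h55.KQ

open Finset Filter Topology MeasureTheory ProbabilityTheory
open Pool.Agent.H373R2.T7 (lamz)
open Pool.Agent.T9h55.RM (cnt Gr mem_Gr conc_law prob_unif indep_sets)

lemma abel_law (P : ℕ → ℝ) (h0 : ∀ k, 0 ≤ P k) (h1 : ∀ k, P k ≤ 1) (c : ℝ)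
    (hu : Tendsto (fun n : ℕ => (∑ k ∈ Icc 1 n, 2 * Real.log k * P k) / n) atTop (𝓝 c)) :
    Tendsto (fun n : ℕ => (∑ k ∈ Icc 1 n, P k) / (n / Real.log n ^ 1)) atTop (𝓝 (c / 2)) := by
  classical
  have hlog : Tendsto (fun k : ℕ => Real.log (k : ℝ)) atTop atTop := Real.tendsto_log_atTop.comp tendsto_natCast_atTop_atTop
  have hll : Tendsto (fun n : ℕ => Real.log (Real.log n) / Real.log n) atTop (𝓝 0) :=
    (Real.isLittleO_log_id_atTop.tendsto_div_nhds_zero).comp hlog
  have hD : Tendsto (fun n : ℕ => (∑ k ∈ Icc 1 n, 2 * (Real.log n - Real.log k) * P k) / n) atTop (𝓝 0) := by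
    have h3 : Tendsto (fun n : ℕ => 2 / Real.log n + 4 * (Real.log (Real.log n) / Real.log n) *
        ((∑ k ∈ Icc 1 n, 2 * Real.log k * P k) / n)) atTop (𝓝 (0 + 4 * 0 * c)) :=
      (hlog.const_div_atTop 2).add ((hll.const_mul 4).mul hu)
    rw [mul_zero, zero_mul, add_zero] at h3
    refine squeeze_zero' ?_ ?_ h3
    · filter_upwards with n
      apply div_nonneg _ (Nat.cast_nonneg _)
      refine Finset.sum_nonneg fun k hk => ?_
      rw [mem_Icc] at hk
      have h4 : Real.log k ≤ Real.log n := Real.log_le_log (by exact_mod_cast hk.1) (by exact_mod_cast hk.2)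
      exact mul_nonneg (by linarith) (h0 k)
    · have h4 : ∀ᶠ n : ℕ in atTop, Real.log (Real.log n) / Real.log n ≤ 1 / 4 := by
        filter_upwards [hll.eventually (gt_mem_nhds (show (0 : ℝ) < 1 / 4 by norm_num))] with n hn using hn.le
      filter_upwards [h4, hlog.eventually_ge_atTop 1, eventually_ge_atTop 1] with n h5 h6 h7
      have hn0 : (0 : ℝ) < n := by exact_mod_cast h7
      set L : ℝ := Real.log n with hL
      set l : ℝ := Real.log L with hl
      have hL0 : 0 < L := by linarith
      have hl0 : 0 ≤ l := Real.log_nonneg h6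
      have h8 : 4 * l ≤ L := by
        rw [div_le_iff₀ hL0] at h5
        linarith
      have hpt : ∀ k ∈ Icc 1 n, 2 * (L - Real.log k) * P k ≤
          (if (k : ℝ) ≤ n / L ^ 2 then 2 * L else 0) + 4 * (l / L) * (2 * Real.log k * P k) := by
        intro k hk
        rw [mem_Icc] at hk
        have hk0 : (0 : ℝ) < k := by exact_mod_cast hk.1
        have hk1 : (1 : ℝ) ≤ k := by exact_mod_cast hk.1
        have hlk : 0 ≤ Real.log k := Real.log_nonneg hk1
        have h9 := h0 k
        have h10 := h1 k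
        have h11 : 0 ≤ 4 * (l / L) * (2 * Real.log k * P k) := by positivity
        have hlkn : Real.log k ≤ L := Real.log_le_log hk0 (by exact_mod_cast hk.2)
        split_ifs with hc
        · have h12 : 2 * (L - Real.log k) * P k ≤ 2 * L := by
            calc 2 * (L - Real.log k) * P k ≤ 2 * (L - Real.log k) * 1 :=
                  mul_le_mul_of_nonneg_left h10 (by linarith)
              _ ≤ 2 * L := by linarith
          linarith
        · rw [not_le] at hc
          have h12 : L - 2 * l ≤ Real.log k := by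
            have h13 := Real.log_le_log (by positivity) hc.le
            rw [Real.log_div hn0.ne' (by positivity), Real.log_pow] at h13
            push_cast at h13
            linarith
          have h14 : L * P k ≤ 2 * Real.log k * P k := mul_le_mul_of_nonneg_right (by linarith) h9
          rw [zero_add]
          calc 2 * (L - Real.log k) * P k ≤ 4 * l * P k := mul_le_mul_of_nonneg_right (by linarith) h9
            _ = 4 * (l / L) * (L * P k) := by field_simp
            _ ≤ 4 * (l / L) * (2 * Real.log k * P k) := mul_le_mul_of_nonneg_left h14 (by positivity)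
      have hsum := Finset.sum_le_sum hpt
      rw [Finset.sum_add_distrib, ← Finset.mul_sum] at hsum
      have hcard : ∑ k ∈ Icc 1 n, (if (k : ℝ) ≤ n / L ^ 2 then 2 * L else 0) ≤ 2 / L * n := by
        rw [← Finset.sum_filter, Finset.sum_const, nsmul_eq_mul]
        have h9 : (#((Icc 1 n).filter fun k : ℕ => (k : ℝ) ≤ n / L ^ 2) : ℝ) ≤ n / L ^ 2 := by
          have h10 : #((Icc 1 n).filter fun k : ℕ => (k : ℝ) ≤ n / L ^ 2) ≤ ⌊(n : ℝ) / L ^ 2⌋₊ := by
            have h11 : (Icc 1 n).filter (fun k : ℕ => (k : ℝ) ≤ n / L ^ 2) ⊆ Icc 1 ⌊(n : ℝ) / L ^ 2⌋₊ := by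
              intro k hk
              rw [mem_filter, mem_Icc] at hk
              rw [mem_Icc]
              exact ⟨hk.1.1, Nat.le_floor hk.2⟩
            have h12 := card_le_card h11
            rwa [Nat.card_Icc, Nat.add_sub_cancel] at h12
          exact le_trans (by exact_mod_cast h10) (Nat.floor_le (by positivity))
        calc (#((Icc 1 n).filter fun k : ℕ => (k : ℝ) ≤ n / L ^ 2) : ℝ) * (2 * L) ≤ n / L ^ 2 * (2 * L) :=
              mul_le_mul_of_nonneg_right h9 (by positivity)
          _ = 2 / L * n := by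
              field_simp
      rw [div_le_iff₀ hn0]
      calc ∑ k ∈ Icc 1 n, 2 * (L - Real.log k) * P k ≤ _ := hsum
        _ ≤ 2 / L * n + 4 * (l / L) * ∑ k ∈ Icc 1 n, 2 * Real.log k * P k := by linarith
        _ = (2 / L + 4 * (l / L) * ((∑ k ∈ Icc 1 n, 2 * Real.log k * P k) / n)) * n := by
            field_simp
  have h4 := (hu.add hD).div_const 2
  rw [add_zero] at h4
  refine h4.congr' ?_
  filter_upwards [hlog.eventually_ge_atTop 1, eventually_ge_atTop 1] with n h6 h7
  have hn0 : (0 : ℝ) < n := by exact_mod_cast h7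
  have hL0 : 0 < Real.log n := by linarith
  rw [← add_div, ← Finset.sum_add_distrib]
  have e : ∑ k ∈ Icc 1 n, (2 * Real.log k * P k + 2 * (Real.log n - Real.log k) * P k) =
      2 * Real.log n * ∑ k ∈ Icc 1 n, P k := by
    rw [Finset.mul_sum]
    refine Finset.sum_congr rfl fun k _ => ?_
    ring
  rw [e, pow_one]
  field_simp

variable {Ω : Type*} [MeasurableSpace Ω] {μ : Measure Ω}

/-- the random values -/
def val (z : ℕ → ℕ) (ξ : ℕ → Ω → ℕ) (ω : Ω) (k : ℕ) : ℕ := fq k + Nat.factorial (z k) * ξ k ω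

/-- the number of the primes among the values at `1, …, n` -/
def pc (b : ℕ → ℕ) (n : ℕ) : ℕ := #((Icc 1 n).filter fun k => (b k).Prime)

theorem law [IsProbabilityMeasure μ] (A : ℕ) (z H : ℕ → ℕ) (ξ : ℕ → Ω → ℕ) (c : ℝ) (hc0 : 0 < c) (hz : Monotone z)
    (hc : Tendsto (fun k => Lz (z k)) atTop (𝓝 c))
    (hA : ∀ᶠ k : ℕ in atTop, ((Nat.factorial (z k) : ℕ) : ℝ) ≤ Real.log k ^ A)
    (hH : ∀ᶠ k : ℕ in atTop, (k : ℝ) ^ 2 / Real.log k ^ A ≤ (Nat.factorial (z k) : ℝ) * H k ∧
      (Nat.factorial (z k) : ℝ) * H k ≤ (k : ℝ) ^ 2 * Real.log k ^ A)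
    (hm : ∀ k, Measurable (ξ k)) (hi : iIndepFun ξ μ)
    (hu : ∀ k, 1 ≤ k → ∀ h < H k, μ.real {ω | ξ k ω = h} = 1 / (H k : ℝ)) :
    ∀ᵐ ω ∂μ, Tendsto (fun n : ℕ => (pc (val z ξ ω) n : ℝ) / Nat.primeCounting n) atTop (𝓝 (c / 2)) := by
  classical
  have hlog : Tendsto (fun k : ℕ => Real.log (k : ℝ)) atTop atTop := Real.tendsto_log_atTop.comp tendsto_natCast_atTop_atTop
  set E : ℕ → Set Ω := fun k => {ω | (fq k + Nat.factorial (z k) * ξ k ω).Prime} with hE
  have hiE := indep_sets hm hi (fun k h => (fq k + Nat.factorial (z k) * h).Prime)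
  have hEm : ∀ k, MeasurableSet (E k) := hiE.1
  have hEi : iIndepSet E μ := hiE.2
  have hprob : ∀ k, 1 ≤ k → 1 ≤ H k →
      μ.real (E k) = (#((range (H k)).filter fun h => (fq k + Nat.factorial (z k) * h).Prime) : ℝ) / H k := by
    intro k hk hk2
    have h5 := prob_unif (hm k) hk2 (hu k hk) (fun h => (fq k + Nat.factorial (z k) * h).Prime)
    refine Eq.trans h5 ?_
    congr!
  -- the mean value of the probabilities
  have hdiff : Tendsto (fun k : ℕ => 2 * Real.log k * μ.real (E k) - lamz (z k) (fq k)) atTop (𝓝 0) := by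
    rw [Metric.tendsto_nhds]
    intro ε hε
    filter_upwards [win A (ε / 2) (by positivity), hA, hH, eventually_ge_atTop 1, hlog.eventually_ge_atTop 1] with
      k h1 h2 h3 h4 h5
    have hk0 : (0 : ℝ) < k := by exact_mod_cast h4
    have h6 : 0 < (k : ℝ) ^ 2 / Real.log k ^ A := by positivity
    have h7 : 0 < (Nat.factorial (z k) : ℝ) * H k := lt_of_lt_of_le h6 h3.1
    have h8 : (0 : ℝ) < H k := (mul_pos_iff_of_pos_left (by exact_mod_cast Nat.factorial_pos _)).1 h7
    have h9 : 1 ≤ H k := by exact_mod_cast h8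
    rw [Real.dist_eq, sub_zero, hprob k h4 h9]
    exact lt_of_le_of_lt (h1 (z k) (H k) h2 h3.1 h3.2) (by linarith)
  have hmean := (cesaro _ 0 hdiff).add (mean_law z hz A hA c hc)
  rw [zero_add] at hmean
  have hmean2 : Tendsto (fun n : ℕ => (∑ k ∈ Icc 1 n, 2 * Real.log k * μ.real (E k)) / n) atTop (𝓝 c) := by
    refine hmean.congr fun n => ?_
    rw [← add_div, ← Finset.sum_add_distrib]
    congr 1
    refine Finset.sum_congr rfl fun k _ => ?_
    ring
  have hP := abel_law (fun k => μ.real (E k)) (fun k => measureReal_nonneg) (fun k => measureReal_le_one) c hmean2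
  have hlaw := conc_law (μ := μ) hEm hEi (fun n => Icc 1 n) (fun _ m => {m}) (fun n => by
    intro a _ b _ hab
    simpa [Function.onFun] using hab) (c := c / 2) (by positivity) 1 (by norm_num) (by
      refine hP.congr fun n => ?_
      simp only [Finset.prod_singleton])
  have hpnt : Tendsto (fun n : ℕ => (Nat.primeCounting n : ℝ) / (n / Real.log n ^ 1)) atTop (𝓝 1) := by
    have h1 := Pool.Agent.Cov.PNT.pi_tendsto.comp tendsto_natCast_atTop_atTop
    refine h1.congr' ?_
    filter_upwards [hlog.eventually_ge_atTop 1, eventually_ge_atTop 1] with n h6 h7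
    simp only [Function.comp_apply]
    rw [Nat.floor_natCast, pow_one]
    have hn0 : (0 : ℝ) < n := by exact_mod_cast h7
    have hL0 : 0 < Real.log n := by linarith
    field_simp
  filter_upwards [hlaw] with ω h1
  have h2 := h1.div hpnt one_ne_zero
  rw [div_one] at h2
  refine h2.congr' ?_
  filter_upwards [hlog.eventually_ge_atTop 1, eventually_ge_atTop 1] with n h6 h7
  simp only [Pi.div_apply]
  have hn0 : (0 : ℝ) < n := by exact_mod_cast h7
  have hL0 : 0 < Real.log n := by linarith
  have e1 : cnt E (fun m => {m}) (Icc 1 n) ω = pc (val z ξ ω) n := by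
    unfold cnt pc
    congr 1
    apply Finset.filter_congr
    intro k _
    rw [mem_Gr]
    simp only [Finset.mem_singleton, forall_eq]
    rfl
  rw [e1]
  have h3 : (n : ℝ) / Real.log n ^ 1 ≠ 0 := by positivity
  rw [div_div_div_cancel_right₀ h3]

end Pool.Agent.T9h55.KQ
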