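import Pool.Agent.T9h55.KQ.Win
import Pool.Agent.T9h60.BH.Tail

/-! The mean value of the local factor of `k² + 3 k + 1` (helper55). -/

set_option autoImplicit false

namespace Pool.Agent.T9h55.KQ

open Finset Filter Topology
open Pool.Agent.H373R2.T7 (pz Vz lamz mem_pz Vz_ge Vz_pos Vz_le_one lamz_nonneg nuB sys_count)
open Pool.Agent.R460.SB (QS QS_perB Sz prod_bd)

/-- the truncated constant -/
noncomputable def Lz (z : ℕ) : ℝ := Sz (-1) (-3) 1 z

lemma QS_iff (p k : ℕ) : QS (-1) (-3) 1 p k ↔ p ∣ fq k := by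
  unfold QS fq
  rw [show (1 : ℤ) - (-1 * (k : ℤ) ^ 2 + -3 * (k : ℤ)) = ((k ^ 2 + 3 * k + 1 : ℕ) : ℤ) by push_cast; ring]
  exact Int.natCast_dvd_natCast

open Classical in
lemma sum_lamz (j a : ℕ) : ∑ k ∈ Icc 1 a, (lamz j (fq k) - Lz j) = (Vz j)⁻¹ *
    ((#((Icc 1 a).filter fun k : ℕ => ∀ p ∈ pz j, ¬ QS (-1) (-3) 1 p k) : ℝ) -
      a * ∏ p ∈ pz j, (1 - (nuB (QS (-1) (-3) 1) p : ℝ) / p)) := by
  rw [Finset.sum_sub_distrib, Finset.sum_const, Nat.card_Icc, nsmul_eq_mul, Finset.card_filter]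
  unfold Lz Sz
  push_cast
  rw [mul_sub, Finset.mul_sum]
  congr 1
  · refine Finset.sum_congr rfl fun k _ => ?_
    unfold lamz
    simp only [QS_iff]
    split_ifs
    · rw [mul_one]
    · rw [mul_zero]
  · ring

lemma triv (j a : ℕ) : |∑ k ∈ Icc 1 a, (lamz j (fq k) - Lz j)| ≤ ((j : ℝ) + 1) * a := by
  classical
  rw [sum_lamz, abs_mul, abs_of_pos (inv_pos.2 (Vz_pos j))]
  have h1 := prod_bd (-1) (-3) 1 j
  have h2 : (#((Icc 1 a).filter fun k : ℕ => ∀ p ∈ pz j, ¬ QS (-1) (-3) 1 p k) : ℝ) ≤ a := by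
    have : #((Icc 1 a).filter fun k : ℕ => ∀ p ∈ pz j, ¬ QS (-1) (-3) 1 p k) ≤ a :=
      (card_filter_le _ _).trans (by simp)
    exact_mod_cast this
  have ha : (0 : ℝ) ≤ a := Nat.cast_nonneg _
  have h3 : |(#((Icc 1 a).filter fun k : ℕ => ∀ p ∈ pz j, ¬ QS (-1) (-3) 1 p k) : ℝ) -
      a * ∏ p ∈ pz j, (1 - (nuB (QS (-1) (-3) 1) p : ℝ) / p)| ≤ a := by
    have h4 : (a : ℝ) * ∏ p ∈ pz j, (1 - (nuB (QS (-1) (-3) 1) p : ℝ) / p) ≤ a := mul_le_of_le_one_right ha h1.2
    have h5 : 0 ≤ (a : ℝ) * ∏ p ∈ pz j, (1 - (nuB (QS (-1) (-3) 1) p : ℝ) / p) := mul_nonneg ha h1.1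
    have h6 : (0 : ℝ) ≤ (#((Icc 1 a).filter fun k : ℕ => ∀ p ∈ pz j, ¬ QS (-1) (-3) 1 p k) : ℝ) := Nat.cast_nonneg _
    rw [abs_le]
    constructor <;> linarith
  exact mul_le_mul (inv_Vz_le j) h3 (abs_nonneg _) (by positivity)

lemma fixed (E U : ℕ) : ∀ᶠ n : ℕ in atTop, ∀ j : ℕ, (j : ℝ) ≤ Real.log n ^ E → ∀ a ≤ n,
    |∑ k ∈ Icc 1 a, (lamz j (fq k) - Lz j)| ≤ ((j : ℝ) + 1) * (n / Real.log n ^ U) := by
  classical
  obtain ⟨N1, h1⟩ := sys_count 3 (E + 1) (U + 1) (by norm_num)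
  have hlog : Tendsto (fun k : ℕ => Real.log (k : ℝ)) atTop atTop := Real.tendsto_log_atTop.comp tendsto_natCast_atTop_atTop
  have hsq : ∀ᶠ n : ℕ in atTop, Real.log n ^ U ≤ Real.sqrt n := by
    have h2 := (isLittleO_log_rpow_rpow_atTop (s := 1 / 2) (U : ℝ) (by norm_num)).def one_pos
    have h3 := tendsto_natCast_atTop_atTop.eventually h2
    filter_upwards [h3, eventually_ge_atTop 1] with n h4 h5
    have hn1 : (1 : ℝ) ≤ n := by exact_mod_cast h5
    have hl := Real.log_nonneg hn1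
    rw [Real.rpow_natCast, Real.norm_eq_abs, Real.norm_eq_abs, one_mul, abs_of_nonneg (pow_nonneg hl U),
      ← Real.sqrt_eq_rpow, abs_of_nonneg (Real.sqrt_nonneg _)] at h4
    exact h4
  filter_upwards [hlog.eventually_ge_atTop (2 ^ (E + 1) + 2 ^ (U + 1)), hsq, eventually_ge_atTop (N1 ^ 2 + 1)] with
    n h2 h3 h4 j hj a ha
  set L : ℝ := Real.log n with hL
  have e2 : (0 : ℝ) < 2 ^ (E + 1) := by positivity
  have e3 : (0 : ℝ) < 2 ^ (U + 1) := by positivity
  have e4 : (1 : ℝ) ≤ 2 ^ (E + 1) := one_le_pow₀ (by norm_num)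
  have hL1 : 1 ≤ L := by linarith
  have hL0 : 0 < L := by linarith
  have hn0 : (0 : ℝ) < n := by exact_mod_cast (by omega : 0 < n)
  have hj0 : (0 : ℝ) ≤ j := Nat.cast_nonneg _
  rcases le_or_gt ((a : ℝ)) (n / L ^ U) with hc | hc
  · exact (triv j a).trans (mul_le_mul_of_nonneg_left hc (by linarith))
  · have h5 : Real.sqrt n ≤ a := by
      refine le_trans ?_ hc.le
      rw [le_div_iff₀ (by positivity)]
      calc Real.sqrt n * L ^ U ≤ Real.sqrt n * Real.sqrt n := mul_le_mul_of_nonneg_left h3 (Real.sqrt_nonneg _)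
        _ = n := Real.mul_self_sqrt hn0.le
    have hs0 : 0 < Real.sqrt n := Real.sqrt_pos.2 hn0
    have ha0 : (0 : ℝ) < a := lt_of_lt_of_le hs0 h5
    have hN1 : N1 ≤ a := by
      have h6 : (N1 : ℝ) ≤ Real.sqrt n := by
        apply Real.le_sqrt_of_sq_le
        exact_mod_cast (by omega : N1 ^ 2 ≤ n)
      exact_mod_cast h6.trans h5
    have hla : L / 2 ≤ Real.log a := by
      have h6 := Real.log_le_log hs0 h5
      rw [Real.log_sqrt hn0.le] at h6
      exact h6
    have hla2 : Real.log a ≤ L := Real.log_le_log ha0 (by exact_mod_cast ha)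
    rcases Nat.eq_zero_or_pos j with hj1 | hj1
    · subst hj1
      rw [sum_lamz]
      have e : pz 0 = ∅ := by
        rw [eq_empty_iff_forall_notMem]
        intro p hp
        rw [mem_pz] at hp
        have := hp.2.two_le
        omega
      rw [e]
      simp
      positivity
    · have hjl : (j : ℝ) ≤ Real.log a ^ (E + 1) := by
        have hpow : (2 : ℝ) ^ (E + 1) = 2 ^ E * 2 := pow_succ _ _
        have h7 : (2 : ℝ) ^ E ≤ Real.log a := by linarith
        calc (j : ℝ) ≤ L ^ E := hj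
          _ ≤ (2 * Real.log a) ^ E := pow_le_pow_left₀ hL0.le (by linarith) _
          _ = 2 ^ E * Real.log a ^ E := mul_pow _ _ _
          _ ≤ Real.log a * Real.log a ^ E := mul_le_mul_of_nonneg_right h7 (pow_nonneg (by linarith) _)
          _ = Real.log a ^ (E + 1) := by ring
      have h8 := h1 a hN1 j hj1 hjl (QS (-1) (-3) 1) (QS_perB (by norm_num) 1)
      rw [sum_lamz, abs_mul, abs_of_pos (inv_pos.2 (Vz_pos j))]
      refine mul_le_mul (inv_Vz_le j) (h8.trans ?_) (abs_nonneg _) (by positivity)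
      have h9 : (L / 2) ^ (U + 1) ≤ Real.log a ^ (U + 1) := pow_le_pow_left₀ (by positivity) hla _
      calc (a : ℝ) / Real.log a ^ (U + 1) ≤ n / (L / 2) ^ (U + 1) := by
            have : (a : ℝ) ≤ n := by exact_mod_cast ha
            gcongr
        _ = n * 2 ^ (U + 1) / (L ^ U * L) := by
            rw [div_pow, ← pow_succ]
            field_simp
        _ ≤ n / L ^ U := by
            rw [div_le_div_iff₀ (by positivity) (by positivity)]
            have h10 : (2 : ℝ) ^ (U + 1) ≤ L := by linarith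
            have h11 : 0 ≤ (n : ℝ) * L ^ U := by positivity
            nlinarith

lemma lower_set (S : ℕ → Prop) [DecidablePred S] (hS : ∀ a b, a ≤ b → S b → S a) (n : ℕ) :
    ∃ a ≤ n, (Icc 1 n).filter S = Icc 1 a := by
  induction n with
  | zero => exact ⟨0, le_rfl, by simp⟩
  | succ n ih =>
    by_cases h : S (n + 1)
    · refine ⟨n + 1, le_rfl, ?_⟩
      apply Finset.filter_true_of_mem
      intro k hk
      rw [mem_Icc] at hk
      exact hS k (n + 1) hk.2 h
    · obtain ⟨a, ha, h2⟩ := ih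
      refine ⟨a, by omega, ?_⟩
      rw [← h2]
      ext k
      simp only [mem_filter, mem_Icc]
      constructor
      · rintro ⟨⟨h3, h4⟩, h5⟩
        refine ⟨⟨h3, ?_⟩, h5⟩
        rcases Nat.lt_or_ge n k with h6 | h6
        · exact absurd ((by omega : k = n + 1) ▸ h5) h
        · exact h6
      · rintro ⟨⟨h3, h4⟩, h5⟩
        exact ⟨⟨h3, by omega⟩, h5⟩

lemma block (z : ℕ → ℕ) (hz : Monotone z) (n j : ℕ) (F : ℕ → ℝ) (B : ℝ)
    (hB : ∀ a ≤ n, |∑ k ∈ Icc 1 a, F k| ≤ B) : |∑ k ∈ (Icc 1 n).filter (fun k => z k = j), F k| ≤ 2 * B := by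
  obtain ⟨a, ha, h1⟩ := lower_set (fun k => z k ≤ j) (fun x y hxy hy => (hz hxy).trans hy) n
  obtain ⟨b, hb, h2⟩ := lower_set (fun k => z k < j) (fun x y hxy hy => lt_of_le_of_lt (hz hxy) hy) n
  have e1 : (Icc 1 n).filter (fun k => z k = j) = (Icc 1 n).filter (fun k => z k ≤ j) \ (Icc 1 n).filter (fun k => z k < j) := by
    ext k
    simp only [Finset.mem_sdiff, Finset.mem_filter]
    constructor
    · rintro ⟨h3, h4⟩
      exact ⟨⟨h3, h4.le⟩, fun h5 => by omega⟩
    · rintro ⟨⟨h3, h4⟩, h5⟩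
      refine ⟨h3, ?_⟩
      by_contra h6
      exact h5 ⟨h3, by omega⟩
  have hsub : (Icc 1 n).filter (fun k => z k < j) ⊆ (Icc 1 n).filter (fun k => z k ≤ j) := by
    intro k hk
    rw [mem_filter] at hk ⊢
    exact ⟨hk.1, hk.2.le⟩
  have e2 := Finset.sum_sdiff hsub (f := F)
  rw [← e1, h1, h2] at e2
  have e3 : ∑ k ∈ (Icc 1 n).filter (fun k => z k = j), F k = ∑ k ∈ Icc 1 a, F k - ∑ k ∈ Icc 1 b, F k := by linarith
  rw [e3]
  have h3 := hB a ha
  have h4 := hB b hb
  rw [abs_le] at h3 h4 ⊢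
  constructor <;> linarith [h3.1, h3.2, h4.1, h4.2]

lemma sum_Icc_range (n : ℕ) (F : ℕ → ℝ) : ∑ k ∈ Icc 1 n, F k = ∑ k ∈ range n, F (k + 1) := by
  induction n with
  | zero => simp
  | succ n ih => rw [Finset.sum_Icc_succ_top (by omega), ih, Finset.sum_range_succ]

lemma cesaro (u : ℕ → ℝ) (c : ℝ) (h : Tendsto u atTop (𝓝 c)) :
    Tendsto (fun n : ℕ => (∑ k ∈ Icc 1 n, u k) / n) atTop (𝓝 c) := by
  have h1 := (h.comp (tendsto_add_atTop_nat 1)).cesaro
  refine h1.congr fun n => ?_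
  rw [sum_Icc_range, div_eq_inv_mul]
  rfl

/-- the mean value -/
theorem mean_law (z : ℕ → ℕ) (hz : Monotone z) (A : ℕ) (hA : ∀ᶠ k : ℕ in atTop, ((Nat.factorial (z k) : ℕ) : ℝ) ≤ Real.log k ^ A)
    (c : ℝ) (hc : Tendsto (fun k => Lz (z k)) atTop (𝓝 c)) :
    Tendsto (fun n : ℕ => (∑ k ∈ Icc 1 n, lamz (z k) (fq k)) / n) atTop (𝓝 c) := by
  classical
  have h1 := cesaro _ c hc
  have hlog : Tendsto (fun k : ℕ => Real.log (k : ℝ)) atTop atTop := Real.tendsto_log_atTop.comp tendsto_natCast_atTop_atTop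
  have h2 : Tendsto (fun n : ℕ => (∑ k ∈ Icc 1 n, (lamz (z k) (fq k) - Lz (z k))) / n) atTop (𝓝 0) := by
    have h3 : Tendsto (fun n : ℕ => 8 / Real.log n) atTop (𝓝 0) := hlog.const_div_atTop 8
    refine squeeze_zero_norm' ?_ h3
    filter_upwards [fixed A (2 * A + 1), hA, hlog.eventually_ge_atTop 1, eventually_ge_atTop 1] with n h4 h5 h6 h7
    have hn0 : (0 : ℝ) < n := by exact_mod_cast h7
    set L : ℝ := Real.log n with hL
    have hL0 : 0 < L := by linarith
    have hLA : 1 ≤ L ^ A := one_le_pow₀ h6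
    have hzn : (z n : ℝ) ≤ L ^ A := by
      have : (z n : ℝ) ≤ (Nat.factorial (z n) : ℕ) := by exact_mod_cast Nat.self_le_factorial _
      exact this.trans h5
    have hfib := Finset.sum_fiberwise_of_maps_to (s := Icc 1 n) (t := range (z n + 1)) (g := z) (fun k hk => by
      rw [mem_Icc] at hk
      rw [mem_range]
      have := hz hk.2
      omega) (fun k => lamz (z k) (fq k) - Lz (z k))
    rw [← hfib, Real.norm_eq_abs, abs_div, abs_of_pos hn0, div_le_iff₀ hn0]
    have hb : ∀ j ∈ range (z n + 1), |∑ k ∈ (Icc 1 n).filter (fun k => z k = j), (lamz (z k) (fq k) - Lz (z k))| ≤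
        2 * (2 * L ^ A * (n / L ^ (2 * A + 1))) := by
      intro j hj
      rw [mem_range] at hj
      have hjz : (j : ℝ) ≤ z n := by exact_mod_cast (by omega : j ≤ z n)
      have e1 : ∑ k ∈ (Icc 1 n).filter (fun k => z k = j), (lamz (z k) (fq k) - Lz (z k)) =
          ∑ k ∈ (Icc 1 n).filter (fun k => z k = j), (lamz j (fq k) - Lz j) := by
        refine Finset.sum_congr rfl fun k hk => ?_
        rw [mem_filter] at hk
        rw [hk.2]
      rw [e1]
      apply block z hz n j (fun k => lamz j (fq k) - Lz j)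
      intro a ha
      refine (h4 j (hjz.trans hzn) a ha).trans ?_
      apply mul_le_mul_of_nonneg_right _ (by positivity)
      linarith
    calc |∑ j ∈ range (z n + 1), ∑ k ∈ (Icc 1 n).filter (fun k => z k = j), (lamz (z k) (fq k) - Lz (z k))|
        ≤ ∑ j ∈ range (z n + 1), |∑ k ∈ (Icc 1 n).filter (fun k => z k = j), (lamz (z k) (fq k) - Lz (z k))| :=
          Finset.abs_sum_le_sum_abs _ _
      _ ≤ ∑ _j ∈ range (z n + 1), 2 * (2 * L ^ A * (n / L ^ (2 * A + 1))) := Finset.sum_le_sum hb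
      _ = ((z n : ℝ) + 1) * (2 * (2 * L ^ A * (n / L ^ (2 * A + 1)))) := by
          rw [Finset.sum_const, card_range, nsmul_eq_mul]
          push_cast
          ring
      _ ≤ (2 * L ^ A) * (2 * (2 * L ^ A * (n / L ^ (2 * A + 1)))) := by
          apply mul_le_mul_of_nonneg_right _ (by positivity)
          linarith
      _ = 8 / L * n := by
          have e1 : L ^ (2 * A + 1) = L ^ A * L ^ A * L := by ring
          rw [e1]
          field_simp
          ring
  have h3 := h1.add h2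
  rw [add_zero] at h3
  refine h3.congr fun n => ?_
  rw [← add_div, ← Finset.sum_add_distrib]
  congr 1
  refine Finset.sum_congr rfl fun k _ => ?_
  ring

end Pool.Agent.T9h55.KQ
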