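import Pool.Agent.N80.DC.Lin
import Pool.Agent.N75.DC.SW
import Pool.Agent.H373R2.T7.LamZ

/-! Primes congruent to `k² + 3 k + 1` modulo `z!` in windows (helper55). -/

set_option autoImplicit false

namespace Pool.Agent.T9h55.KQ

open Finset Filter Topology
open Pool.Agent.N718.DC (lam pos rt S_SW S_LIN)
open Pool.Agent.H373R2.T7 (pz Vz lamz mem_pz Vz_ge Vz_pos Vz_le_one lamz_nonneg lamz_le)

/-- the polynomial -/
def fq (k : ℕ) : ℕ := k ^ 2 + 3 * k + 1

theorem lin : S_LIN := Pool.Agent.N80.DC.lin_ Pool.Agent.N75.DC.sw_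

lemma pf_fact (z : ℕ) : (Nat.factorial z).primeFactors = pz z := by
  ext p
  rw [Nat.mem_primeFactors, mem_pz]
  constructor
  · rintro ⟨h1, h2, -⟩
    exact ⟨(h1.dvd_factorial).1 h2, h1⟩
  · rintro ⟨h1, h2⟩
    exact ⟨h2, (h2.dvd_factorial).2 h1, Nat.factorial_ne_zero z⟩

lemma rt_fact (z : ℕ) : rt (Nat.factorial z) = (Vz z)⁻¹ := by
  have h := Nat.totient_eq_mul_prod_factors (Nat.factorial z)
  rw [pf_fact] at h
  have h2 : ((Nat.totient (Nat.factorial z) : ℕ) : ℝ) = (Nat.factorial z : ℝ) * Vz z := by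
    have h3 := congrArg (fun q : ℚ => (q : ℝ)) h
    push_cast at h3
    rw [h3]
    unfold Vz
    simp only [one_div]
  unfold rt
  rw [h2]
  have h4 : (0 : ℝ) < (Nat.factorial z : ℝ) := by exact_mod_cast Nat.factorial_pos z
  have h5 := Vz_pos z
  field_simp

open Classical in
lemma lamz_fact (z n : ℕ) : lamz z n = rt (Nat.factorial z) *
    (if IsCoprime (n : ℤ) ((Nat.factorial z : ℕ) : ℤ) then 1 else 0) := by
  have e : IsCoprime (n : ℤ) ((Nat.factorial z : ℕ) : ℤ) ↔ ∀ p ∈ pz z, ¬ p ∣ n := by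
    rw [Nat.isCoprime_iff_coprime]
    constructor
    · intro h p hp hd
      rw [mem_pz] at hp
      have h1 : p ∣ Nat.gcd n (Nat.factorial z) := Nat.dvd_gcd hd ((hp.2.dvd_factorial).2 hp.1)
      rw [h] at h1
      exact hp.2.one_lt.ne' (Nat.dvd_one.1 h1)
    · intro h
      rw [Nat.coprime_iff_gcd_eq_one]
      by_contra hne
      obtain ⟨p, hp, hd⟩ := Nat.exists_prime_and_dvd hne
      exact h p (mem_pz.2 ⟨(hp.dvd_factorial).1 (hd.trans (Nat.gcd_dvd_right _ _)), hp⟩) (hd.trans (Nat.gcd_dvd_left _ _))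
  unfold lamz
  rw [rt_fact]
  by_cases h : ∀ p ∈ pz z, ¬ p ∣ n
  · rw [if_pos h, if_pos (e.2 h), mul_one]
  · rw [if_neg h, if_neg (fun h' => h (e.1 h')), mul_zero]

lemma two_pow_fact (z : ℕ) : 2 ^ z ≤ 2 * Nat.factorial z := by
  induction z with
  | zero => simp
  | succ z ih =>
    rcases Nat.eq_zero_or_pos z with h | h
    · subst h
      simp
    · rw [pow_succ, Nat.factorial_succ]
      have : 2 ≤ z + 1 := by omega
      nlinarith [Nat.factorial_pos z]

lemma z_le_log {z : ℕ} {Y : ℝ} (hY : 1 ≤ Y) (h : ((Nat.factorial z : ℕ) : ℝ) ≤ Y) : (z : ℝ) ≤ 1 + 2 * Real.log Y := by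
  have h1 : (2 : ℝ) ^ z ≤ 2 * Y := by
    have : ((2 ^ z : ℕ) : ℝ) ≤ ((2 * Nat.factorial z : ℕ) : ℝ) := by exact_mod_cast two_pow_fact z
    push_cast at this
    linarith
  have h2 := Real.log_le_log (by positivity) h1
  rw [Real.log_pow, Real.log_mul (by norm_num) (by linarith)] at h2
  have h3 := Real.log_two_gt_d9
  have h4 := Real.log_nonneg hY
  have h5 : ((z : ℝ) - 1) * Real.log 2 ≤ Real.log Y := by linarith
  rcases le_or_gt (z : ℝ) 1 with h6 | h6
  · linarith
  · nlinarith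

lemma lamz_le' (z n : ℕ) : lamz z n ≤ z + 1 := by
  rcases Nat.eq_zero_or_pos z with h | h
  · subst h
    have : Vz 0 = 1 := by
      unfold Vz
      have e : pz 0 = ∅ := by
        rw [eq_empty_iff_forall_notMem]
        intro p hp
        rw [mem_pz] at hp
        have := hp.2.two_le
        omega
      rw [e]
      simp
    unfold lamz
    rw [this]
    split_ifs <;> simp
  · have := lamz_le z h n
    linarith

lemma inv_Vz_le (z : ℕ) : (Vz z)⁻¹ ≤ z + 1 := by
  have h := lamz_le' z 1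
  unfold lamz at h
  rwa [if_pos (fun p hp hd => by
    rw [mem_pz] at hp
    exact hp.2.one_lt.ne' (Nat.dvd_one.1 hd))] at h

lemma small_ev (A : ℕ) (ε : ℝ) (hε : 0 < ε) : ∀ᶠ L : ℝ in atTop,
    (2 + A * Real.log L) * (5 + 2 * (A * Real.log L)) ≤ ε * L := by
  have h1 : (fun L : ℝ => (2 + A * Real.log L) * (5 + 2 * (A * Real.log L))) =o[atTop] (id : ℝ → ℝ) := by
    have e : (fun L : ℝ => (2 + A * Real.log L) * (5 + 2 * (A * Real.log L))) =
        fun L : ℝ => 10 + ((9 * A) * Real.log L + (2 * A ^ 2) * Real.log L ^ 2) := by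
      funext L
      ring
    rw [e]
    apply Asymptotics.IsLittleO.add
    · exact Asymptotics.isLittleO_const_id_atTop (10 : ℝ)
    · apply Asymptotics.IsLittleO.add
      · exact Real.isLittleO_log_id_atTop.const_mul_left _
      · exact Real.isLittleO_pow_log_id_atTop.const_mul_left _
  filter_upwards [h1.def hε, eventually_ge_atTop 0] with L h2 h3
  rw [id, Real.norm_eq_abs, Real.norm_eq_abs, abs_of_nonneg h3] at h2
  exact (le_abs_self _).trans h2

lemma sum_int (H : ℕ) (F : ℤ → ℝ) : ∑ t ∈ Icc (0 : ℤ) ((H : ℤ) - 1), F t = ∑ h ∈ range H, F (h : ℤ) := by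
  symm
  apply Finset.sum_nbij' (fun h : ℕ => (h : ℤ)) (fun t : ℤ => t.toNat)
  · intro h hh
    rw [mem_range] at hh
    rw [mem_Icc]
    omega
  · intro t ht
    rw [mem_Icc] at ht
    rw [mem_range]
    omega
  · intro h _
    simp
  · intro t ht
    rw [mem_Icc] at ht
    omega
  · intro h _
    rfl

/-- the primes in a window -/
theorem win (A : ℕ) (ε : ℝ) (hε : 0 < ε) : ∀ᶠ k : ℕ in atTop, ∀ z H : ℕ, ((Nat.factorial z : ℕ) : ℝ) ≤ Real.log k ^ A →
    (k : ℝ) ^ 2 / Real.log k ^ A ≤ (Nat.factorial z : ℝ) * H → (Nat.factorial z : ℝ) * H ≤ (k : ℝ) ^ 2 * Real.log k ^ A →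
    |2 * Real.log k * ((#((range H).filter fun h => (fq k + Nat.factorial z * h).Prime) : ℝ) / H) - lamz z (fq k)| ≤ ε := by
  classical
  obtain ⟨X₀, hX⟩ := lin A (3 * A + 2)
  have hlog : Tendsto (fun k : ℕ => Real.log (k : ℝ)) atTop atTop := Real.tendsto_log_atTop.comp tendsto_natCast_atTop_atTop
  filter_upwards [hlog.eventually_ge_atTop (1 + 6 / ε), hlog.eventually (small_ev A ε hε), eventually_ge_atTop (X₀ + 10)] with
    k hk1 hk2 hk3 z H h1 h2 h3
  set L : ℝ := Real.log k with hL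
  have hε1 : 0 < 6 / ε := by positivity
  have hL1 : 1 ≤ L := by linarith
  have hL0 : 0 < L := by linarith
  set M : ℕ := Nat.factorial z with hM
  have hM1 : 1 ≤ M := Nat.factorial_pos z
  have hM0 : (0 : ℝ) < M := by exact_mod_cast hM1
  have hk10 : (10 : ℝ) ≤ k := by exact_mod_cast (by omega : 10 ≤ k)
  have hLA : 1 ≤ L ^ A := one_le_pow₀ hL1
  have hH0 : (0 : ℝ) < H := by
    have h4 : 0 < (k : ℝ) ^ 2 / L ^ A := by positivity
    have h5 : 0 < (M : ℝ) * H := lt_of_lt_of_le h4 h2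
    exact (mul_pos_iff_of_pos_left hM0).1 h5
  set X : ℕ := fq k + M * H with hXd
  have hfk : (fq k : ℝ) = (k : ℝ) ^ 2 + 3 * k + 1 := by
    unfold fq
    push_cast
    ring
  have hXr : (X : ℝ) = (k : ℝ) ^ 2 + 3 * k + 1 + M * H := by
    rw [hXd]
    push_cast
    rw [hfk]
  have hkX : (k : ℝ) ^ 2 ≤ X := by
    rw [hXr]
    have : 0 < (M : ℝ) * H := by positivity
    linarith
  have hXX : X₀ ≤ X := by
    have h4 : k ≤ k ^ 2 := Nat.le_self_pow two_ne_zero k
    have h5 : k ^ 2 ≤ X := by exact_mod_cast hkX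
    omega
  have hlogX : 2 * L ≤ Real.log X := by
    have h4 := Real.log_le_log (by positivity) hkX
    rw [Real.log_pow] at h4
    push_cast at h4
    exact h4
  have hX3 : (X : ℝ) ≤ 3 * k ^ 2 * L ^ A := by
    rw [hXr]
    have h4 : 3 * (k : ℝ) + 1 ≤ k ^ 2 := by nlinarith
    have h5 : (k : ℝ) ^ 2 ≤ k ^ 2 * L ^ A := le_mul_of_one_le_right (by positivity) hLA
    linarith
  have hX0 : (0 : ℝ) < X := lt_of_lt_of_le (by positivity) hkX
  have key := hX X hXX M hM1 (h1.trans (pow_le_pow_left₀ hL0.le (by linarith) A)) (fq k : ℤ) 0 ((H : ℤ) - 1) (by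
    intro t ht
    rw [mem_Icc] at ht
    have h4 : (M : ℤ) * t ≤ M * H := mul_le_mul_of_nonneg_left (by omega) (by positivity)
    have h5 : (0 : ℤ) ≤ (M : ℤ) * t := mul_nonneg (by positivity) ht.1
    have h6 : (0 : ℤ) ≤ (fq k : ℤ) := by positivity
    rw [abs_of_nonneg (by omega), hXd]
    push_cast
    omega)
  rw [sum_int, sum_int] at key
  have hpos : ∑ h ∈ range H, pos ((fq k : ℤ) + (M : ℤ) * (h : ℤ)) = H := by
    rw [Finset.sum_congr rfl (g := fun _ => (1 : ℝ))]
    · rw [Finset.sum_const, card_range, nsmul_eq_mul, mul_one]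
    · intro h _
      unfold pos
      rw [if_pos]
      have h6 : (0 : ℤ) < (fq k : ℤ) := by
        unfold fq
        positivity
      have h7 : (0 : ℤ) ≤ (M : ℤ) * (h : ℤ) := by positivity
      omega
  rw [hpos] at key
  set S : ℝ := ∑ h ∈ range H, lam ((fq k : ℤ) + (M : ℤ) * (h : ℤ)) with hS
  set g : ℝ := lamz z (fq k) with hg
  have hg0 : 0 ≤ g := lamz_nonneg _ _
  have eg : rt M * (if IsCoprime (fq k : ℤ) (M : ℤ) then (H : ℝ) else 0) = g * H := by
    rw [hg, lamz_fact]
    split_ifs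
    · ring
    · ring
  rw [eg] at key
  -- the error term
  have herr : (X : ℝ) / Real.log X ^ (3 * A + 2) ≤ 3 / L * H := by
    have h4 : L ^ (3 * A + 2) ≤ Real.log X ^ (3 * A + 2) := pow_le_pow_left₀ hL0.le (by linarith) _
    have h5 : (k : ℝ) ^ 2 ≤ L ^ (2 * A) * H := by
      have h6 : (k : ℝ) ^ 2 ≤ (M * H) * L ^ A := by
        rwa [div_le_iff₀ (by positivity)] at h2
      calc (k : ℝ) ^ 2 ≤ (M * H) * L ^ A := h6
        _ ≤ (L ^ A * H) * L ^ A := by gcongr
        _ = L ^ (2 * A) * H := by ring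
    calc (X : ℝ) / Real.log X ^ (3 * A + 2) ≤ X / L ^ (3 * A + 2) := by gcongr
      _ ≤ (3 * k ^ 2 * L ^ A) / L ^ (3 * A + 2) := by gcongr
      _ ≤ (3 * (L ^ (2 * A) * H) * L ^ A) / L ^ (3 * A + 2) := by gcongr
      _ = 3 / L ^ 2 * H := by
          have e1 : L ^ (3 * A + 2) = L ^ (2 * A) * L ^ A * L ^ 2 := by ring
          rw [e1]
          field_simp
      _ ≤ 3 / L * H := by
          have h6 : L ≤ L ^ 2 := by nlinarith
          gcongr
  have key2 := key.trans herr
  -- comparison with the number of primes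
  set N : ℝ := (#((range H).filter fun h => (fq k + M * h).Prime) : ℝ) with hN
  have hN0 : 0 ≤ N := Nat.cast_nonneg _
  have hNsum : N = ∑ h ∈ range H, if (fq k + M * h).Prime then (1 : ℝ) else 0 := by
    rw [hN, Finset.card_filter]
    push_cast
    rfl
  have hlam : ∀ h ∈ range H, 2 * L * (if (fq k + M * h).Prime then (1 : ℝ) else 0) ≤ lam ((fq k : ℤ) + (M : ℤ) * (h : ℤ)) ∧
      lam ((fq k : ℤ) + (M : ℤ) * (h : ℤ)) ≤ (2 * L + (2 + A * Real.log L)) * (if (fq k + M * h).Prime then (1 : ℝ) else 0) := by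
    intro h hh
    rw [mem_range] at hh
    have e1 : (fq k : ℤ) + (M : ℤ) * (h : ℤ) = ((fq k + M * h : ℕ) : ℤ) := by push_cast; rfl
    rw [e1]
    unfold lam
    rw [Int.natAbs_natCast]
    have hp : (0 : ℤ) < ((fq k + M * h : ℕ) : ℤ) := by
      have : 0 < fq k := by unfold fq; positivity
      exact_mod_cast (by omega : 0 < fq k + M * h)
    by_cases hpr : (fq k + M * h).Prime
    · rw [if_pos hpr, if_pos ⟨hp, hpr⟩, mul_one, mul_one]
      have h4 : (k : ℝ) ^ 2 ≤ (((fq k + M * h : ℕ) : ℤ) : ℝ) := by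
        push_cast
        rw [hfk]
        have : (0 : ℝ) ≤ (M : ℝ) * h := by positivity
        linarith
      have h5 : (((fq k + M * h : ℕ) : ℤ) : ℝ) ≤ X := by
        rw [hXr]
        push_cast
        rw [hfk]
        have : (M : ℝ) * h ≤ M * H := by
          have : (h : ℝ) ≤ H := by exact_mod_cast hh.le
          gcongr
        linarith
      constructor
      · have h6 := Real.log_le_log (by positivity) h4
        rw [Real.log_pow] at h6
        push_cast at h6 ⊢
        exact h6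
      · have h6 := Real.log_le_log (lt_of_lt_of_le (by positivity) h4) (h5.trans hX3)
        rw [Real.log_mul (by positivity) (by positivity), Real.log_mul (by positivity) (by positivity), Real.log_pow,
          Real.log_pow] at h6
        have h7 : Real.log 3 ≤ 2 := by
          have := Real.log_le_sub_one_of_pos (show (0 : ℝ) < 3 by norm_num)
          linarith
        push_cast at h6 ⊢
        linarith
    · rw [if_neg hpr, if_neg (fun h' => hpr h'.2), mul_zero, mul_zero]
      exact ⟨le_rfl, le_rfl⟩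
  have hlow : 2 * L * N ≤ S := by
    rw [hNsum, Finset.mul_sum]
    exact Finset.sum_le_sum fun h hh => (hlam h hh).1
  have hup : S ≤ (2 * L + (2 + A * Real.log L)) * N := by
    rw [hNsum, Finset.mul_sum]
    exact Finset.sum_le_sum fun h hh => (hlam h hh).2
  have hgle : g ≤ 2 + 2 * (A * Real.log L) := by
    have h4 := lamz_le' z (fq k)
    have h5 := z_le_log hLA h1
    rw [Real.log_pow] at h5
    linarith
  have hlogL : 0 ≤ Real.log L := Real.log_nonneg hL1
  have hD0 : 0 ≤ (A : ℝ) * Real.log L := mul_nonneg (Nat.cast_nonneg _) hlogL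
  rw [abs_le] at key2
  have h3L : 3 / L ≤ ε / 2 := by
    rw [div_le_iff₀ hL0]
    have h4 : 6 / ε ≤ L := by linarith
    rw [div_le_iff₀ hε] at h4
    linarith
  have h3L1 : 3 / L ≤ 3 := by
    rw [div_le_iff₀ hL0]
    linarith
  have hN1 : 2 * L * N ≤ (5 + 2 * (A * Real.log L)) * H := by
    have h4 : g * H ≤ (2 + 2 * (A * Real.log L)) * H := mul_le_mul_of_nonneg_right hgle hH0.le
    have h5 : 3 / L * H ≤ 3 * H := mul_le_mul_of_nonneg_right h3L1 hH0.le
    linarith [key2.2]
  have hDN : (2 + A * Real.log L) * N ≤ ε / 2 * H := by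
    have h4 : (2 + A * Real.log L) * (2 * L * N) ≤ (2 + A * Real.log L) * ((5 + 2 * (A * Real.log L)) * H) :=
      mul_le_mul_of_nonneg_left hN1 (by linarith)
    have h5 : (2 + A * Real.log L) * (5 + 2 * (A * Real.log L)) * H ≤ ε * L * H := mul_le_mul_of_nonneg_right hk2 hH0.le
    have h6 : 2 * L * ((2 + A * Real.log L) * N) ≤ 2 * L * (ε / 2 * H) := by linarith
    exact le_of_mul_le_mul_left h6 (by positivity)
  have h3LH : 3 / L * H ≤ ε / 2 * H := mul_le_mul_of_nonneg_right h3L hH0.le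
  have e1 : 2 * L * (N / H) - g = (2 * L * N - g * H) / H := by
    field_simp
  rw [e1, abs_le]
  constructor
  · rw [le_div_iff₀ hH0]
    linarith [key2.1]
  · rw [div_le_iff₀ hH0]
    linarith [key2.2]

end Pool.Agent.T9h55.KQ
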